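import Mathlib

/-! # Sobolev gap, piece CONC: concentration of measures `F^J w dμ` -/

open Filter Topology Set MeasureTheory

namespace Pool.Agent.Helper38.SG

theorem concentration {X : Type*} [TopologicalSpace X] [CompactSpace X] [MeasurableSpace X]
    [BorelSpace X] (μ : Measure X) [IsProbabilityMeasure μ] [μ.IsOpenPosMeasure]
    {F w : X → ℝ} (hF : Continuous F) (hw : Continuous w) (hF0 : ∀ x, 0 ≤ F x)
    (hF1 : ∀ x, F x ≤ 1) (hw0 : ∀ x, 0 ≤ w x) {x0 : X} (hFx : F x0 = 1) (hwx : 0 < w x0)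
    {O : Set X} (hO : IsOpen O) (hFO : ∀ x, F x = 1 → x ∈ O) {ε : ℝ} (hε : 0 < ε) :
    ∃ J0 : ℕ, ∀ J ≥ J0, 0 < ∫ x, F x ^ J * w x ∂μ ∧
      ∫ x in Oᶜ, F x ^ J ∂μ ≤ ε * ∫ x, F x ^ J * w x ∂μ := by
  -- a bound `q < 1` of `F` off `O`
  obtain ⟨q, hq0, hq1, hq⟩ : ∃ q : ℝ, 0 ≤ q ∧ q < 1 ∧ ∀ x ∈ Oᶜ, F x ≤ q := by
    rcases (Oᶜ).eq_empty_or_nonempty with h | h
    · exact ⟨0, le_rfl, one_pos, fun x hx => by rw [h] at hx; exact absurd hx (notMem_empty x)⟩
    · obtain ⟨x1, hx1, hmax⟩ := hO.isClosed_compl.isCompact.exists_isMaxOn h hF.continuousOn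
      refine ⟨F x1, hF0 x1, lt_of_le_of_ne (hF1 x1) fun he => hx1 (hFO x1 he), ?_⟩
      exact fun x hx => hmax hx
  set q' : ℝ := (q + 1) / 2 with hq'
  have hqq' : q < q' := by rw [hq']; linarith
  have hq'0 : 0 < q' := lt_of_le_of_lt hq0 hqq'
  have hq'1 : q' < 1 := by rw [hq']; linarith
  -- an open set on which `F` and `w` are large
  set U : Set X := {x | q' < F x} ∩ {x | w x0 / 2 < w x} with hU
  have hUo : IsOpen U := (isOpen_lt continuous_const hF).inter (isOpen_lt continuous_const hw)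
  have hx0U : x0 ∈ U := ⟨by change q' < F x0; rw [hFx]; exact hq'1, by change w x0 / 2 < w x0; linarith⟩
  have hUpos : 0 < μ.real U := by
    rw [measureReal_def]
    exact ENNReal.toReal_pos (hUo.measure_pos μ ⟨x0, hx0U⟩).ne' (measure_ne_top μ U)
  have hint : ∀ J : ℕ, Integrable (fun x => F x ^ J * w x) μ := fun J =>
    ((hF.pow J).mul hw).integrable_of_hasCompactSupport (HasCompactSupport.of_compactSpace _)
  have hint' : ∀ J : ℕ, Integrable (fun x => F x ^ J) μ := fun J =>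
    (hF.pow J).integrable_of_hasCompactSupport (HasCompactSupport.of_compactSpace _)
  have hlow : ∀ J : ℕ, q' ^ J * (w x0 / 2) * μ.real U ≤ ∫ x, F x ^ J * w x ∂μ := by
    intro J
    have h1 : ∫ x in U, F x ^ J * w x ∂μ ≤ ∫ x, F x ^ J * w x ∂μ :=
      setIntegral_le_integral (hint J)
        (Eventually.of_forall fun x => mul_nonneg (pow_nonneg (hF0 x) J) (hw0 x))
    refine le_trans ?_ h1
    have h2 : ∫ _x in U, q' ^ J * (w x0 / 2) ∂μ ≤ ∫ x in U, F x ^ J * w x ∂μ := by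
      refine setIntegral_mono_on (integrable_const _).integrableOn (hint J).integrableOn
        hUo.measurableSet fun x hx => ?_
      refine mul_le_mul (pow_le_pow_left₀ hq'0.le (le_of_lt hx.1) J) (le_of_lt hx.2)
        (by linarith) (pow_nonneg (hF0 x) J)
    rw [setIntegral_const, smul_eq_mul, mul_comm] at h2
    exact h2
  have hup : ∀ J : ℕ, ∫ x in Oᶜ, F x ^ J ∂μ ≤ q ^ J := by
    intro J
    have h2 : ∫ x in Oᶜ, F x ^ J ∂μ ≤ ∫ _x in Oᶜ, q ^ J ∂μ :=
      setIntegral_mono_on (hint' J).integrableOn (integrable_const _).integrableOn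
        hO.measurableSet.compl fun x hx => pow_le_pow_left₀ (hF0 x) (hq x hx) J
    rw [setIntegral_const, smul_eq_mul] at h2
    refine h2.trans ?_
    have h3 : μ.real Oᶜ ≤ 1 := measureReal_le_one
    calc μ.real Oᶜ * q ^ J ≤ 1 * q ^ J := mul_le_mul_of_nonneg_right h3 (pow_nonneg hq0 J)
      _ = q ^ J := one_mul _
  have hc : 0 < ε * ((w x0 / 2) * μ.real U) := mul_pos hε (mul_pos (by linarith) hUpos)
  have ht : Tendsto (fun J : ℕ => (q / q') ^ J) atTop (𝓝 0) :=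
    tendsto_pow_atTop_nhds_zero_of_lt_one (div_nonneg hq0 hq'0.le) ((div_lt_one hq'0).mpr hqq')
  obtain ⟨J0, hJ0⟩ := eventually_atTop.mp (ht.eventually (gt_mem_nhds hc))
  refine ⟨J0, fun J hJ => ⟨?_, ?_⟩⟩
  · refine lt_of_lt_of_le ?_ (hlow J)
    exact mul_pos (mul_pos (pow_pos hq'0 J) (by linarith)) hUpos
  · refine (hup J).trans ?_
    have h4 : q ^ J = (q / q') ^ J * q' ^ J := by
      rw [div_pow, div_mul_cancel₀]
      exact (pow_pos hq'0 J).ne'
    calc q ^ J = (q / q') ^ J * q' ^ J := h4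
      _ ≤ (ε * ((w x0 / 2) * μ.real U)) * q' ^ J :=
          mul_le_mul_of_nonneg_right (hJ0 J hJ).le (pow_pos hq'0 J).le
      _ = ε * (q' ^ J * (w x0 / 2) * μ.real U) := by ring
      _ ≤ ε * ∫ x, F x ^ J * w x ∂μ := mul_le_mul_of_nonneg_left (hlow J) hε.le

end Pool.Agent.Helper38.SG
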