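import Mathlib

/-!
# Piece SG-UNIQ of MP_6e4a0b_al

A function on the line with uniformly analytic derivatives, all of which vanish at `0`, is zero.
-/

open Filter Topology Set

namespace Pool.Agent.Helper77.SG

/-- Taylor estimate to the right of a common zero of all derivatives -/
theorem taylor_right (φ : ℕ → ℝ → ℝ) (h : ∀ n t, HasDerivAt (φ n) (φ (n + 1) t) t) (a : ℝ)
    (ha : ∀ n, φ n a = 0) (m : ℕ) : ∀ (n : ℕ) (K : ℝ), (∀ t, |φ (n + m) t| ≤ K) →
    ∀ t, a ≤ t → |φ n t| ≤ K * (t - a) ^ m / m.factorial := by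
  induction m with
  | zero =>
    intro n K hK t _
    simpa using hK t
  | succ m ih =>
    intro n K hK t hat
    have hK' : ∀ t, |φ (n + 1 + m) t| ≤ K := by
      intro t
      have := hK t
      rwa [show n + 1 + m = n + (m + 1) by ring]
    have h1 := ih (n + 1) K hK'
    -- the comparison function
    have hder : ∀ s : ℝ, HasDerivAt (fun s => K * (s - a) ^ (m + 1) / (m + 1).factorial)
        (K * (s - a) ^ m / m.factorial) s := by
      intro s
      have h2 : HasDerivAt (fun s : ℝ => (s - a) ^ (m + 1)) (((m + 1 : ℕ) : ℝ) * (s - a) ^ m * 1) s :=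
        ((hasDerivAt_id s).sub_const a).pow (m + 1)
      have h3 := (h2.const_mul K).div_const ((m + 1).factorial : ℝ)
      have h4 : (m.factorial : ℝ) ≠ 0 := by exact_mod_cast m.factorial_ne_zero
      have h5 : ((m : ℝ) + 1) ≠ 0 := by positivity
      have e : K * (s - a) ^ m / m.factorial =
          K * (((m + 1 : ℕ) : ℝ) * (s - a) ^ m * 1) / ((m + 1).factorial : ℝ) := by
        rw [Nat.factorial_succ]
        push_cast
        field_simp
      rw [e]
      exact h3
    have key : ∀ ε : ℝ, |ε| = 1 → 0 ≤ K * (t - a) ^ (m + 1) / (m + 1).factorial - ε * φ n t := by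
      intro ε hε
      have hd : ∀ s : ℝ, HasDerivAt
          (fun s => K * (s - a) ^ (m + 1) / (m + 1).factorial - ε * φ n s)
          (K * (s - a) ^ m / m.factorial - ε * φ (n + 1) s) s := fun s =>
        (hder s).sub ((h n s).const_mul ε)
      have hmono : MonotoneOn (fun s => K * (s - a) ^ (m + 1) / (m + 1).factorial - ε * φ n s)
          (Ici a) := by
        apply monotoneOn_of_deriv_nonneg (convex_Ici a)
        · exact fun s _ => (hd s).continuousAt.continuousWithinAt
        · exact fun s _ => (hd s).differentiableAt.differentiableWithinAt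
        · intro s hs
          rw [interior_Ici, mem_Ioi] at hs
          rw [(hd s).deriv]
          have h6 := h1 s hs.le
          have h7 : ε * φ (n + 1) s ≤ |φ (n + 1) s| := by
            calc ε * φ (n + 1) s ≤ |ε * φ (n + 1) s| := le_abs_self _
              _ = |φ (n + 1) s| := by rw [abs_mul, hε, one_mul]
          linarith
      have h8 := hmono (self_mem_Ici) (mem_Ici.2 hat) hat
      simp only [sub_self, ha n, mul_zero, sub_zero] at h8
      rw [zero_pow (by omega), mul_zero, zero_div] at h8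
      exact h8
    have e1 := key 1 (by norm_num)
    have e2 := key (-1) (by norm_num)
    rw [abs_le]
    constructor <;> linarith

theorem step (φ : ℕ → ℝ → ℝ) (h : ∀ n t, HasDerivAt (φ n) (φ (n + 1) t) t)
    (B : ℝ) (hB : ∀ n t, |φ n t| ≤ B ^ (n + 1) * n.factorial) (a : ℝ) (ha : ∀ n, φ n a = 0)
    (t : ℝ) (h1 : a ≤ t) (h2 : t ≤ a + 1 / (4 * (B + 1))) (n : ℕ) : φ n t = 0 := by
  have hB0 : 0 ≤ B := by
    have := (abs_nonneg _).trans (hB 0 0)
    simpa using this
  set C : ℝ := B ^ (n + 1) * 2 ^ n * n.factorial with hC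
  have hC0 : 0 ≤ C := by positivity
  have key : ∀ m : ℕ, |φ n t| ≤ C * (1 / 2) ^ m := by
    intro m
    have h3 := taylor_right φ h a ha m n (B ^ (n + m + 1) * (n + m).factorial)
      (fun s => hB (n + m) s) t h1
    refine h3.trans ?_
    have h4 : (((n + m).factorial : ℕ) : ℝ) ≤ 2 ^ (n + m) * n.factorial * m.factorial := by
      have h5 : (n + m).factorial ≤ 2 ^ (n + m) * n.factorial * m.factorial := by
        rw [← Nat.add_choose_mul_factorial_mul_factorial n m]
        gcongr
        exact Nat.choose_le_two_pow _ _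
      exact_mod_cast h5
    have h6 : 0 ≤ t - a := by linarith
    have h7 : B * (t - a) ≤ 1 / 4 := by
      have h8 : t - a ≤ 1 / (4 * (B + 1)) := by linarith
      calc B * (t - a) ≤ B * (1 / (4 * (B + 1))) := by gcongr
        _ ≤ 1 / 4 := by
          rw [mul_one_div, div_le_div_iff₀ (by positivity) (by norm_num)]
          linarith
    have hm : (0 : ℝ) < m.factorial := by exact_mod_cast m.factorial_pos
    rw [div_le_iff₀ hm]
    calc B ^ (n + m + 1) * ((n + m).factorial : ℝ) * (t - a) ^ m
        ≤ B ^ (n + m + 1) * (2 ^ (n + m) * n.factorial * m.factorial) * (t - a) ^ m := by gcongr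
      _ = C * (2 * (B * (t - a))) ^ m * m.factorial := by
          rw [hC, mul_pow, mul_pow, pow_add, pow_add, pow_add 2 n m]
          ring
      _ ≤ C * (1 / 2) ^ m * m.factorial := by
          have h9 : 0 ≤ 2 * (B * (t - a)) := by positivity
          have h10 : 2 * (B * (t - a)) ≤ 1 / 2 := by linarith
          gcongr
  have hlim : Tendsto (fun m : ℕ => C * (1 / 2 : ℝ) ^ m) atTop (𝓝 (C * 0)) :=
    (tendsto_pow_atTop_nhds_zero_of_lt_one (by norm_num) (by norm_num)).const_mul C
  rw [mul_zero] at hlim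
  have h11 : |φ n t| ≤ 0 := ge_of_tendsto' hlim key
  exact abs_nonpos_iff.1 h11

theorem uniq_right (φ : ℕ → ℝ → ℝ) (h : ∀ n t, HasDerivAt (φ n) (φ (n + 1) t) t)
    (B : ℝ) (hB : ∀ n t, |φ n t| ≤ B ^ (n + 1) * n.factorial) (h0 : ∀ n, φ n 0 = 0) (t : ℝ)
    (ht : 0 ≤ t) (n : ℕ) : φ n t = 0 := by
  have hB0 : 0 ≤ B := by
    have := (abs_nonneg _).trans (hB 0 0)
    simpa using this
  set r : ℝ := 1 / (4 * (B + 1)) with hr
  have hr0 : 0 < r := by positivity
  have key : ∀ k : ℕ, ∀ s, 0 ≤ s → s ≤ k * r → ∀ n, φ n s = 0 := by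
    intro k
    induction k with
    | zero =>
      intro s hs1 hs2 n
      have : s = 0 := by
        apply le_antisymm _ hs1
        simpa using hs2
      rw [this]; exact h0 n
    | succ k ih =>
      intro s hs1 hs2 n
      by_cases hs : s ≤ k * r
      · exact ih s hs1 hs n
      · push Not at hs
        refine step φ h B hB (k * r) (fun n => ih _ (by positivity) le_rfl n) s hs.le ?_ n
        push_cast at hs2
        linarith
  obtain ⟨k, hk⟩ := exists_nat_ge (t / r)
  exact key k t ht (by rwa [div_le_iff₀ hr0] at hk) n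

/-- SG-UNIQ. A function on the line with uniformly analytic derivatives, all of which vanish
at `0`, is zero. `φ n` is the `n`-th derivative. -/
theorem analytic_uniq (φ : ℕ → ℝ → ℝ) (h : ∀ n t, HasDerivAt (φ n) (φ (n + 1) t) t)
    (B : ℝ) (hB : ∀ n t, |φ n t| ≤ B ^ (n + 1) * n.factorial) (h0 : ∀ n, φ n 0 = 0) :
    ∀ t, φ 0 t = 0 := by
  intro t
  rcases le_total 0 t with ht | ht
  · exact uniq_right φ h B hB h0 t ht 0
  · set ψ : ℕ → ℝ → ℝ := fun n t => (-1) ^ n * φ n (-t) with hψ
    have hder : ∀ n t, HasDerivAt (ψ n) (ψ (n + 1) t) t := by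
      intro n t
      have h1 : HasDerivAt (fun s : ℝ => φ n (-s)) (φ (n + 1) (-t) * -1) t :=
        (h n (-t)).comp t (hasDerivAt_neg t)
      have h2 := h1.const_mul ((-1 : ℝ) ^ n)
      have h3 : ψ (n + 1) t = (-1 : ℝ) ^ n * (φ (n + 1) (-t) * -1) := by
        simp only [hψ]; ring
      rw [h3]
      exact h2
    have hbd : ∀ n t, |ψ n t| ≤ B ^ (n + 1) * n.factorial := by
      intro n t
      simp only [hψ]
      rw [abs_mul, abs_pow, abs_neg, abs_one, one_pow, one_mul]
      exact hB n (-t)
    have h4 := uniq_right ψ hder B hbd (fun n => by simp [hψ, h0]) (-t) (by linarith) 0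
    simpa [hψ] using h4

end Pool.Agent.Helper77.SG
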